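import Mathlib
import Pool.Agent.L7h59.AR.Final2

/-!
# Artin groups, and extensions by Artin groups

`C` is any class of groups with the closure properties `ClosedE C` (it contains `ℤ`, is closed under
subgroups, finite products, free products, overgroups of finite index and directed colimits, and
satisfies the extension criterion of the Farrell–Jones conjecture) which contains the metabelian
groups and the Coxeter groups of finite rank. All this is published for the class of the groups
which satisfy the Full Farrell–Jones Conjecture.

`Artin M` is the Artin group of the Coxeter matrix `M` on any set `B` of generators (Mathlib codes the
label infinity by `0`: there is no relation between `i` and `j` if `M i j = 0`); `rs M X` is the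
restriction of `M` to the set `X` of generators.

Let `N` be a normal subgroup of `G` with `G ⧸ N` in `C` which is the Artin group of a matrix `M` of any rank,
finite or infinite. Suppose that every coset of `N` contains an element such that the conjugation by
it permutes the standard generators of `N`, or maps each of them to the inverse of the permuted
generator. Then `G` is in `C` if and only if the Artin groups `Artin (rs M X)` are in `C` for all finite
sets `X` of generators which do not contain two generators with label infinity.

For `G = N` this says that the Farrell–Jones conjecture for all Artin groups is equivalent to the one for
the Artin groups of finite rank without infinite labels. An example of the general case are the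
virtual Artin groups `VA = KVA ⋊ W` of Bellingeri, Paris and Thiel, where `KVA` is an Artin group whose
generators correspond to the roots of the Coxeter group `W` (its rank is infinite if `W` is infinite)
and are permuted by `W`.

Outline of the proof for `G = N = A`.

* Directed colimits reduce it to finite rank. Let `v`, `v'` be generators with label infinity,
  `X₀ = B - v`, `X₁ = B - v'`. The Artin group `A` is the amalgamated product of the standard parabolic
  subgroups `A(X₀)`, `A(X₁)`, the Coxeter group `W` the one of `W(X₀)`, `W(X₁)`; the Bass–Serre tree `T` of
  `A` maps to the tree `T'` of `W`.
* For each set `X` of generators the group `A` acts on the set of pairs `(w, a)` of a minimal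
  representative `w` of a coset in `W / W(X)` and an element `a` of `A(X)` (Deodhar's lemma): a cocycle
  `ka X` on `A` with values in `A(X)`. It gives van der Lek's theorem (`A(X)` is a subgroup) and for each
  vertex of `T` a homomorphism from the pure Artin group `P`, the kernel of `A → W`, to `A(X)` which is
  injective on the vertex stabilizer (for standard vertices: Godelle and Paris). By the criterion for
  actions on trees with a homomorphism for each edge `P` is in `C`.
* As `W` is in `C`, it remains to see that `P⟨g⟩` is in `C` for all `g` in `A`. If the image `w` of `g` in `W`
  fixes a vertex of `T'`, one contracts the components of the complement of the preimage in `T` of the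
  set of the vertices of `T'` with a finite `w`-orbit and uses induced representations (finite orbits).
* Otherwise `w` has an axis in `T'`. The intersection of the stabilizers of its vertices is a parabolic
  subgroup; after conjugation it is standard, `W(Z)`, `Z ≠ B`. Up to finite index the cocycle of `Z` is a
  homomorphism on `P⟨g⟩`. Let `K` be its kernel in `P`. By the extension criterion it remains to treat
  `K⟨x⟩` where `x` acts as a translation of the axis. Here one contracts the components of the
  complement of the preimage of the axis. The required homomorphisms take values in `A(Xᵢ) ≀ ℤ`: the
  values of the cocycle of `Xᵢ` on the conjugates `xⁿ k x⁻ⁿ` of an element `k` of `K` are trivial for almost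
  all `n`, because the cocycles of `Xᵢ` (based at a vertex of the axis) and of `Z` agree on `k` unless one
  of the finitely many reflections crossed by a word for `k` stabilizes the vertex and is not in `W(Z)`,
  and such a reflection stabilizes only finitely many vertices of the axis.

The general case follows with the realization criterion: by the theorem of Hodkinson and Otto (proved
here with the valuations of Hubička, Konečný and Nešetřil) every partial automorphism of a finite
Coxeter matrix extends to an automorphism of a larger finite matrix all of whose complete subsets are
isomorphic to subsets of the small one.
-/

set_option autoImplicit false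

namespace Pool.Agent.Results.MP_490288_al.ArtinGroups

open Pool.Agent.Y110.FJ (ClosedE)
open Pool.Agent.Helper703.Cox (Artin)
open Pool.Agent.L7h59.AR (rs)

/-- `N` is the Artin group of the matrix `M` and for all `g` in `G` there is `n` in `N` such that the
conjugation by `n * g` maps each standard generator `b` to the standard generator `π b` (`ε = 1`) or
each of them to the inverse of `π b` (`ε = -1`), where `π` is a permutation of the generators which
preserves `M`. -/
def PermutedArtin {G B : Type} [Group G] (M : CoxeterMatrix B) (N : Subgroup G) : Prop :=
  ∃ e : Artin M →* G, Function.Injective e ∧ e.range = N ∧
    ∀ g : G, ∃ n ∈ N, ∃ (π : Equiv.Perm B) (ε : ℤˣ), (∀ b b', M (π b) (π b') = M b b') ∧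
      ∀ b, n * g * e (Artin.gen M b) * (n * g)⁻¹ = e (Artin.gen M (π b)) ^ (ε : ℤ)

theorem result (C : ∀ (G : Type) [Group G], Prop) (hC : ClosedE C)
    (hmet : ∀ (G : Type) [Group G], derivedSeries G 2 = ⊥ → C G)
    (hcox : ∀ (S : Type) (_ : Finite S) (A : CoxeterMatrix S), C A.Group)
    (G B : Type) [Group G] (M : CoxeterMatrix B) (N : Subgroup G) [N.Normal]
    (hN : PermutedArtin M N) (hQ : C (G ⧸ N)) :
    C G ↔ ∀ X : Set B, X.Finite → (∀ i ∈ X, ∀ j ∈ X, M i j ≠ 0) → C (Artin (rs M X)) := by
  obtain ⟨e, he, heN, hperm⟩ := hN
  exact Pool.Agent.L7h59.AR.ext hC hmet hcox e he heN hperm hQ

end Pool.Agent.Results.MP_490288_al.ArtinGroups
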