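import Pool.Agent.L7h79.FJ.GF

/-!
# Kernels which are free products of graph products and free groups

`C` is any class of groups with the closure properties `ClosedF C`: it contains `ℤ`, it is closed under
subgroups, finite products, free products, overgroups of finite index and directed colimits with
arbitrary structure maps, it satisfies the extension criterion of the Farrell–Jones conjecture (`G` is in
`C` if `Q` and the preimages in `G` of all virtually cyclic subgroups of the quotient `Q` of `G` are), and
it is closed under extensions with free kernels. All this is published for the class of the groups
that satisfy the Full Farrell–Jones Conjecture.

Let `N` be a normal subgroup of `G` with `G ⧸ N` in `C`, and suppose that `N` is the free product of the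
graph product of nontrivial subgroups `A v`, `v ∈ V`, along a graph `Λ` (on any set `V`, finite or
infinite), and of a free group with basis `x j`, `j ∈ J` (`GFree Λ A x N`). Suppose

* `hperm`: the conjugation by each `g` in `G` permutes the `N`-conjugacy classes of the vertex groups
  (`Mv N g (A v) (A w)`: there is `n` in `N` such that `n g` maps `A v` onto `A w`; `n` may depend on `v`);
* `hst`: for every `g` and `v` there is `k > 0` such that no power of `g ^ k` maps the class of `A v` to the
  one of `A w` with `w` adjacent to `v`. There is nothing to check if `g` has finite orbits on the classes
  (for instance for finite `V`), if `Λ` is locally finite, or if it has no edges;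
* `hcr`: for all `v` and all `g` in `G` which normalize `A v` the conjugation by `g` on `A v` is realized by
  an inner automorphism in a group in `C` that contains `A v` (`CR C g (A v)`; for instance if the
  subgroup `A v ⟨g⟩` is in `C`).

Then `G` is in `C`. So `C` is closed under extensions by graph products (free products with any free
group allowed) of groups whose conjugacy classes are permuted, although `G` need not preserve any
graph product decomposition of `N` and may act on the free factor in any way: the different vertex
groups may be conjugated by different elements of `N`, as partial conjugations and all automorphisms
of graph products of indecomposable groups do. The case without edges contains the theorem on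
extensions whose kernel is a free product (R684), and the complete graphs the one on permuted direct
factors (R941).

Outline of the proof.

* The kernel of the retraction of `N` to the free group is the graph product of the conjugates
  `f (A v) f⁻¹` of the vertex groups by elements `f` of the free group, along a disjoint union of copies of
  `Λ`. As the quotient of `N` by it is free, one may assume that `N` is a graph product.
* By the realization criterion (R779) it is enough to realize the conjugation by `g` on a finite subset
  of `N`. It lies in the subgroup generated by finitely many vertex groups, which embeds in the
  quotient of `N ⟨g⟩` by the vertex groups outside finitely many orbits of `g`. So one may assume that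
  `G = N ⟨g⟩` and that `g` has finitely many orbits on `V`. By `hst` there is one `k` such that the orbits of
  `g ^ k` are independent sets of vertices; `N ⟨g ^ k⟩` has finite index in `G`, and now the orbits of
  `g ^ k` are an invariant coloring of the graph with finitely many colors.
* Induction on the number of colors (library Q30, `gpk_fin`): let `K` be the normal closure in `N` of the
  vertex groups with the last color. The quotient `G ⧸ K` is covered by the induction. `K` is the free
  product of conjugates of the vertex groups with the last color (the kernel of a retraction of a
  graph product is a graph product, `Rel.kernel`), and `G` permutes their conjugacy classes. The theorem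
  `fp` reduces such kernels to restricted direct products of permuted groups and free kernels.
-/

set_option autoImplicit false

namespace Pool.Agent.Results.MP_490288_al.GraphProductKernels

open Q30.FJ (GFree ClosedF Maps Mv CR)

theorem result (C : ∀ (G : Type) [Group G], Prop) (hC : ClosedF C)
    (G : Type) [Group G] (N : Subgroup G) [N.Normal] (hQ : C (G ⧸ N))
    (V J : Type) (Λ : SimpleGraph V) (A : V → Subgroup G) (x : J → G) (hN : GFree Λ A x N)
    (hne : ∀ v, A v ≠ ⊥)
    (hperm : ∀ (g : G) (v : V), ∃ w, Mv N g (A v) (A w))
    (hst : ∀ (g : G) (v : V), ∃ k : ℕ, 0 < k ∧ ∀ (m : ℤ) (w : V),
      Mv N (g ^ ((k : ℤ) * m)) (A v) (A w) → ¬ Λ.Adj v w)
    (hcr : ∀ (v : V) (g : G), Maps g (A v) (A v) → CR C g (A v)) : C G :=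
  Pool.Agent.L7h79.FJ.gfree_cr hC hN hQ hne hperm hst hcr

end Pool.Agent.Results.MP_490288_al.GraphProductKernels
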