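import Pool.Agent.L7h61.FJ.Thm2

/-!
# Invertible two by two matrices over graded rings are Farrell–Jones groups

`C` is any class of groups with the closure properties `ClosedE C` which contains the metabelian
groups. All this is published for the class of the groups which satisfy the Full Farrell–Jones
Conjecture (closure under subgroups, finite products, free products, overgroups of finite index,
directed colimits, the extension criterion; virtually solvable groups). `GL_2(R)` denotes the group
of invertible two by two matrices over a ring `R`; its subgroups, like `SL_2(R)`, are in `C` if it is.

1. **Extensions.** Let `K` be a normal subgroup of `G` such that `G ⧸ K` is in `C`. Suppose that for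
   each `g` in `G` there is a division ring `D`, not necessarily commutative, with a discrete
   valuation `v` and an embedding `κ` of `K` in `GL_2(D)` such that the conjugation by `g` on `K` is
   induced by a semilinear map, `κ (g k g⁻¹) = b β(κ k) b⁻¹` with `b` in `GL_2(D)` and an automorphism
   `β` of `D` which preserves `v`, and such that the entries of all matrices `κ k - 1` lie in the
   first term of a multiplicative filtration `J` of a part of `D` with the following property: for
   each `m` some term contains no nonzero element of value at least `m` (`Small`). Then `G` is in `C`.

2. **Residual criterion.** Let `ρ : G → GL_2(D)` be a homomorphism, `D` as above. If for each `m` there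
   is a homomorphism `f` of `G` to a group in `C` whose kernel contains no `g ≠ 1` for which all entries
   of `ρ g` have value at least `m`, then `G` is in `C`.

3. **Graded rings and groups of automorphisms.** Let `A = A_0 + A_1 + ...` be a graded ring, not
   necessarily commutative, which embeds in a division ring `E`, let `Γ` be a group of automorphisms
   of the graded ring `A` which extend to `E` (for commutative domains one may take the field of
   fractions), and let `ε : A → S` be a `Γ`-equivariant homomorphism whose kernel is contained in
   `A_1 + A_2 + ...`, for instance the projection to `A_0`. If `GL_2(S) ⋊ Γ` is in `C`, so is
   `GL_2(A) ⋊ Γ`.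

4. **All commutative graded rings.** If `A = A_0 + A_1 + ...` is any commutative graded ring (zero
   divisors and nilpotent elements are allowed, there is no finiteness condition), then `GL_2(A)` is in
   `C` if and only if `GL_2(A_0)` is. It is in `C` if all finitely generated subrings of `A_0` are
   finite. In particular, for each commutative ring `B` and each set `σ` of variables `GL_2(B[σ])` is in
   `C` if and only if `GL_2(B)` is.

5. **One place at infinity.** Let `A` be a noetherian commutative algebra over a field `k` such that
   for each minimal prime `p` there is a discrete valuation on a division ring `D ⊇ A / p` such that
   the elements of `A / p` of value at least `m` lie in a subspace of finite dimension, for each `m`.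
   (For instance the algebra of regular functions on an affine variety whose boundary in a normal
   projective variety is irreducible and ample, like an affine curve with one point at infinity
   or the complement of an irreducible hypersurface in a projective space.) Let `I` be an ideal of `A`
   with `I + p ≠ A` for all minimal primes `p`, and let `R` be ANY subring of `A` (for instance the
   coordinate ring of an integral model). If `GL_2(R / (R ∩ I))` is in `C`, so is `GL_2(R)`.

For the class of the groups which satisfy the Full Farrell–Jones Conjecture the group `GL_2(B)` is
known to be in the class for the ring of integers, for number fields and for global function fields.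

Outline of the proof. `GL_2(D)` acts on the tree of `v`; the tree is constructed here for
noncommutative `D`, with the vertices `GL_2(D) / D^* GL_2(O)` and the parent map of the balls. If `z` in
the congruence subgroup `K` fixes a vertex, then the powers of the conjugate of `z - 1` (or of
`z⁻¹ - 1`) are bounded, so that a power of `z - 1` is zero by the condition on the filtration, and
then `(z - 1)^2 = 0`. If `x`, `y` and the product of `1 + x` and `1 + y` are such, then
`x y = y x = 0`. So the stabilizers in `K` of the vertices are abelian, and the
theorem on trees with edge groups which embed in the first homology of the vertex groups relative
to a homomorphism (`Pool.Agent.N509.TK.hrelative`) applies to `K ⟨g⟩` and the projection to `K ⟨g⟩ / K`.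
For graded rings the valuation is the order of Laurent series over `E`, with `a_0 + a_1 + ...`
mapped to `a_0 + a_1 t⁻¹ + ...`. For commutative graded rings one first takes a finitely generated
subring `B` of `A` (not graded). Its minimal primes are contractions of primes `P` of `A`; the
homomorphisms of `B` to the Laurent series over the fraction fields of the rings `A / P`
together with the one to `A_0` have a nilpotent kernel, and one climbs up the chain
of the intersections of their kernels.
-/

set_option autoImplicit false

namespace Pool.Agent.Results.MP_490288_al.RankTwoLinearGroups

open Pool.Agent.Y110.FJ Pool.Agent.L7h61.FJ

theorem result (C : ∀ (G : Type) [Group G], Prop) (hC : ClosedE C)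
    (hM : ∀ (G : Type) [Group G], derivedSeries G 2 = ⊥ → C G) :
    ExtensionStatement C ∧ ResidualStatement C ∧ GradedStatement C ∧ CommutativeStatement C ∧
      PolynomialStatement C ∧ OnePlaceSubringStatement C := by
  refine ⟨?_, ?_, ?_, ?_, ?_, ?_⟩
  · intro G _ K _ hQ h
    exact critS hC hM K hQ h
  · intro G D _ _ V ρ h
    exact resid hC hM V ρ h
  · intro A S E Γ ς _ _ _ _ _ _ 𝒜 _ j ε a s h hS
    exact grd_semi 𝒜 hC hM j h.inj ε h.ker a s h.graded h.extend h.equiv hS
  · intro A ς _ _ _ 𝒜 _
    exact ⟨grd_iff hC hM 𝒜, fun h => (grd_iff hC hM 𝒜).2 (lf_ring hC h)⟩
  · intro B σ _
    exact mv_iff hC hM
  · intro k A R _ _ _ _ _ f I hf h hI
    exact aff_sub hC hM f hf I h hI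

end Pool.Agent.Results.MP_490288_al.RankTwoLinearGroups
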