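import Pool.Agent.L7h59.TW.Short

/-!
# MP_490288_al: twisted coefficients in a field, all groups, degrees zero and one

Let a group `G` act by automorphisms on a field `k` such that every element of `k` has a finite orbit,
and let `k ⋊ H` be the skew group ring of a subgroup `H` of `G`. The map
`colim K_i(k ⋊ H) → K_i(k ⋊ G)`, `H` ranging over the finite subgroups of `G`, is injective up to
torsion for `i = 0` and `i = 1`. There is no hypothesis on `G`.

The same holds for each functor `F` from rings to abelian groups which is compatible with matrices
(`IsMatrixFunctor F`) and with directed unions (`Cont F`), like all the functors `K_n`, if it holds for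
trivial actions.
-/

set_option autoImplicit false

namespace Pool.Agent.Results.MP_490288_al.TwistedCoefficients

open Pool.Agent.L7h59.TW

theorem result :
    (∀ (k G : Type) [Field k] [Group G] [MulSemiringAction G k],
      (∀ a : k, (MulAction.orbit G a).Finite) →
        InjectiveUpToTorsion k0 k G ∧ InjectiveUpToTorsion k1 k G) ∧
    ∀ F : RFun, IsMatrixFunctor F → Cont F →
      (∀ (k G : Type) [Field k] [Group G] [MulSemiringAction G k],
        (∀ (g : G) (a : k), g • a = a) → InjectiveUpToTorsion F k G) →
      ∀ (k G : Type) [Field k] [Group G] [MulSemiringAction G k],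
        (∀ a : k, (MulAction.orbit G a).Finite) → InjectiveUpToTorsion F k G := by
  refine ⟨fun k G _ _ _ h => ⟨?_, ?_⟩, fun F hB hC hT k G _ _ _ h =>
    principle hB.blow hC hT k G h⟩
  · obtain ⟨hB, hC⟩ := Pool.Agent.L7h75.TW.s_K0F
    refine principle hB hC (fun k N _ _ _ hN => ?_) k G h
    exact (rationallyInjective_iff hB.some k N).2 (Pool.Agent.L7h75.TW.s_TR0 k N hN)
  · obtain ⟨hB, hC⟩ := Pool.Agent.L7h76.TW.s_K1F
    refine principle hB hC (fun k N _ _ _ hN => ?_) k G h
    exact (rationallyInjective_iff hB.some k N).2 (Pool.Agent.L7h76.TW.s_TR1 k N hN)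

end Pool.Agent.Results.MP_490288_al.TwistedCoefficients
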